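import Mathlib
import Pool.Agent.H93PMU.Defs
import Pool.Agent.H93PMU.Scott
import Pool.Agent.H93PMU.Prime
import Pool.Agent.H24Q.Koenig

/-!
# MP_031366_lc: the strength of prime model uniqueness

An omega-model of `RCA_0` is given by its second-order part, a Turing ideal `I`.  All notions
(structures with their elementary diagram, theories, elementary embeddings, isomorphisms) are
interpreted in `I`.

* On omega-models, `WKL_0 + PMU` is exactly `ACA_0`.
* Above every set there is an omega-model of `WKL_0` in which prime model uniqueness fails.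
* Above every set `X`, and avoiding any countable family of sets not computable in `X`, there is
  an omega-model (without largest Turing degree) in which prime model uniqueness holds, and
  weak Koenig's lemma and arithmetical comprehension fail.

Hence `RCA_0` does not prove PMU, PMU does not imply `ACA_0`, and PMU is incomparable with
`WKL_0`: alternative (iii).
-/

set_option autoImplicit false

namespace Pool.Agent.Results.MP_031366_lc.Strength

open Pool.Agent.H93PMU Pool.Agent.H24Q

/-- A Turing ideal containing `X` but no set of degree the jump of `X` does not satisfy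
arithmetical comprehension. -/
theorem exists_jump (X : Set ℕ) : ∃ K : Set ℕ, ¬ TuringReducible (chr K) (chr X) ∧
    ∀ I : Set (Set ℕ), TuringIdeal I → X ∈ I → ACA I → K ∈ I := by
  obtain ⟨V, h1, h2⟩ := exists_proj_not_le X
  exact ⟨_, h2, fun I hI hX hA => hA V (hI.down X hX V h1)⟩

theorem result :
    (∀ I : Set (Set ℕ), TuringIdeal I → (WKL I ∧ PMU I ↔ ACA I)) ∧
    (∀ X : Set ℕ, ∃ I : Set (Set ℕ), TuringIdeal I ∧ X ∈ I ∧ WKL I ∧ ¬ PMU I) ∧
    (∀ (X : Set ℕ) (Y : ℕ → Set ℕ), (∀ i, ¬ TuringReducible (chr (Y i)) (chr X)) →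
      ∃ I : Set (Set ℕ), TuringIdeal I ∧ X ∈ I ∧ (∀ i, Y i ∉ I) ∧
        PMU I ∧ ¬ WKL I ∧ ¬ ACA I ∧
        ∀ Z ∈ I, ∃ W ∈ I, ¬ TuringReducible (chr W) (chr Z)) := by
  refine ⟨fun I hI => ⟨fun h => aca_of_wkl_pmu I hI h.1 h.2,
    fun h => ⟨wkl_of_aca hI h, pmu_of_aca hI h⟩⟩, fun X => ?_, fun X Y hY => ?_⟩
  · obtain ⟨K, hK, hKI⟩ := exists_jump X
    obtain ⟨I, hI, hW, hX, hKn⟩ := Scott.exists_scott_ideal_avoiding X K hK
    exact ⟨I, hI, hX, hW, fun hP => hKn (hKI I hI hX (aca_of_wkl_pmu I hI hW hP))⟩
  · obtain ⟨K, hK, hKI⟩ := exists_jump X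
    obtain ⟨I, hI, hP, hX, hYI, ht⟩ := exists_pmu_ideal_avoiding X
      (fun i => Nat.casesOn i K Y) (fun i => by
        cases i with
        | zero => exact hK
        | succ i => exact hY i)
    have hA : ¬ ACA I := fun h => hYI 0 (hKI I hI hX h)
    exact ⟨I, hI, hX, fun i => hYI (i + 1), hP,
      fun hW => hA (aca_of_wkl_pmu I hI hW hP), hA, ht⟩

end Pool.Agent.Results.MP_031366_lc.Strength
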